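import Pool.Agent.H68.MW.BiFork

/-! # MP_1fe246_co, module PU5: two occurrences of a word in the image come from two occurrences of
a common word above, up to bounded ends, unless the word is almost periodic -/

set_option autoImplicit false

namespace Pool.Agent.H40.MW

open Pool.Agent.H68.MW

section
variable {B A : Type} [Fintype B] {θ : B → List A} {v : ℤ → B} {U : ℤ → A} {c : ℤ → ℤ}

/-- periodicity up to the ends of a window gives `App` -/
theorem app_of_per {q K P : ℕ} {x : ℤ} {n : ℕ} (hq : 0 < q) (hqP : q ≤ P)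
    (hper : Per U q (x + K) (x + n - K)) : App K P (win U x n) := by
  refine ⟨q, hq, hqP, fun i hi hi' => ?_⟩
  rw [length_win] at hi'
  have := hper (x + i) (by omega) (by omega)
  rw [List.getElem?_eq_getElem (by rw [length_win]; omega),
    List.getElem?_eq_getElem (by rw [length_win]; omega), getElem_win, getElem_win, this]
  congr 2
  push_cast
  ring

/-- the common word above a common cut: `x ≤ a ≤ x + r` -/
theorem common_word (hirr : Irred θ) (h : Img θ v U c) {e e' a a' : ℤ} {n t : ℕ} (htn : t ≤ n)
    (ha : c a = e - t) (ha' : c a' = e' - t)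
    (hc : ∀ i : ℕ, i < n → U (e - n + i) = U (e' - n + i)) :
    ∃ (x x' : ℤ) (r : ℕ), win v x r = win v x' r ∧ e - n ≤ c x ∧ c x ≤ e - n + tl θ ∧
      e - tl θ ≤ c (x + r) ∧ c (x + r) ≤ e ∧ c x' - c x = e' - e ∧ x ≤ a ∧ a ≤ x + r ∧
      x' - x = a' - a := by
  -- right end
  obtain ⟨k, hk1, hk2, hk3⟩ : ∃ k : ℕ, (∀ i : ℕ, i < k → v (a + i) = v (a' + i)) ∧
      e - tl θ ≤ c (a + k) ∧ c (a + k) ≤ e := by
    obtain ⟨y, hy1, hy2⟩ := h.exists_block (e - tl θ)
    by_cases hya : y < a
    · refine ⟨0, fun i hi => by omega, ?_, ?_⟩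
      · have := h.strictMono.monotone (show y + 1 ≤ a by omega)
        simp only [Nat.cast_zero, add_zero]
        omega
      · simp only [Nat.cast_zero, add_zero]
        omega
    · have e1 : a + (((y + 1 - a).toNat : ℕ) : ℤ) = y + 1 := by omega
      refine ⟨(y + 1 - a).toNat, fun i hi => ?_, ?_, ?_⟩
      · refine extR hirr h ha ha' ?_ i ?_
        · intro j hj
          have := hc (n - t + j) (by omega)
          have e1 : e - (n : ℤ) + ((n - t + j : ℕ) : ℤ) = e - t + j := by
            push_cast [Nat.cast_sub htn]; ring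
          have e2 : e' - (n : ℤ) + ((n - t + j : ℕ) : ℤ) = e' - t + j := by
            push_cast [Nat.cast_sub htn]; ring
          rw [e1, e2] at this
          exact this
        · have := h.strictMono.monotone (show a + (i : ℤ) ≤ y by omega)
          omega
      · rw [e1]; omega
      · rw [e1]
        have := h.step_le y
        omega
  -- left end
  obtain ⟨l, hl1, hl2, hl3⟩ : ∃ l : ℕ, (∀ i : ℕ, i < l → v (a - i - 1) = v (a' - i - 1)) ∧
      e - n ≤ c (a - l) ∧ c (a - l) ≤ e - n + tl θ := by
    obtain ⟨y, hy1, hy2⟩ := h.exists_block (e - n + tl θ - 1)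
    -- `y + 1` is the first cut at or after `e - n + tl θ`
    by_cases hya : a ≤ y
    · refine ⟨0, fun i hi => by omega, ?_, ?_⟩
      · simp only [Nat.cast_zero, sub_zero]
        omega
      · have := h.strictMono.monotone hya
        simp only [Nat.cast_zero, sub_zero]
        omega
    · have e1 : a - (((a - y).toNat : ℕ) : ℤ) = y := by omega
      refine ⟨(a - y).toNat, fun i hi => ?_, ?_, ?_⟩
      · refine extL (g := e - n) (g' := e' - n) (t := n - t) hirr h
          (by push_cast [Nat.cast_sub htn]; omega) (by push_cast [Nat.cast_sub htn]; omega)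
          (fun j hj => hc j (by omega)) i ?_
        have := h.strictMono.monotone (show y + 1 ≤ a - (i : ℤ) by omega)
        omega
      · rw [e1]
        have := h.step_le y
        omega
      · rw [e1]; omega
  have hwin : ∀ i : ℕ, i < l + k → v (a - l + i) = v (a' - l + i) := by
    intro i hi
    by_cases hil : i < l
    · have := hl1 (l - 1 - i) (by omega)
      have e1 : a - (l : ℤ) + i = a - ((l - 1 - i : ℕ) : ℤ) - 1 := by omega
      have e2 : a' - (l : ℤ) + i = a' - ((l - 1 - i : ℕ) : ℤ) - 1 := by omega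
      rw [e1, e2]; exact this
    · have := hk1 (i - l) (by omega)
      have e1 : a - (l : ℤ) + i = a + ((i - l : ℕ) : ℤ) := by omega
      have e2 : a' - (l : ℤ) + i = a' + ((i - l : ℕ) : ℤ) := by omega
      rw [e1, e2]; exact this
  have hcut := h.cut_eq (a := a - l) (b := a' - l) (k := l) (fun i hi => hwin i (by omega))
  have e1 : a - (l : ℤ) + l = a := by ring
  have e2 : a' - (l : ℤ) + l = a' := by ring
  have e3 : a - (l : ℤ) + ((l + k : ℕ) : ℤ) = a + k := by push_cast; ring
  rw [e1, e2] at hcut
  refine ⟨a - l, a' - l, l + k, (win_eq_iff _ _ _ _ _).2 hwin, hl2, hl3, ?_, ?_, by omega,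
    by omega, by omega, by omega⟩
  · rw [e3]; exact hk2
  · rw [e3]; exact hk3

/-- **PU5.** Two occurrences of a word of length `n` in the image: the word is periodic up to `K`
letters at the ends, with a period `≤ P`, or the two occurrences are images of two occurrences of a
common word above, up to `K` letters at the ends. -/
theorem fsync (hirr : Irred θ) : ∃ K P : ℕ, ∀ (v : ℤ → B) (U : ℤ → A) (c : ℤ → ℤ), Img θ v U c →
    ∀ (e e' : ℤ) (n : ℕ), (∀ i : ℕ, i < n → U (e - n + i) = U (e' - n + i)) →
    App K P (win U (e - n) n) ∨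
    ∃ (x x' : ℤ) (r : ℕ), win v x r = win v x' r ∧ e - n ≤ c x ∧ c x ≤ e - n + K ∧
      e - K ≤ c (x + r) ∧ c (x + r) ≤ e ∧ c x' - c x = e' - e := by
  obtain ⟨N, P, hsync⟩ := sync hirr
  refine ⟨N + tl θ, P, ?_⟩
  intro v U c h e e' n hcom
  rcases hsync v U c h e e' n hcom with ⟨a, a', t, ht, ha, ha'⟩ | ⟨a₁, a₂, h12, hP, hlo, hhi, hv⟩
  · right
    obtain ⟨x, x', r, h1, h2, h3, h4, h5, h6, -, -, -⟩ := common_word hirr h ht ha ha' hcom
    exact ⟨x, x', r, h1, h2, by push_cast; omega, by push_cast; omega, h5, h6⟩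
  · left
    obtain ⟨π, hπ⟩ : ∃ π : ℕ, a₂ = a₁ + π := ⟨(a₂ - a₁).toNat, by omega⟩
    subst hπ
    have hcc := h.strictMono h12
    obtain ⟨y, hy1, hy2⟩ := h.exists_block (e - N)
    have hy3 := h.step_le y
    have e0 : e - (n : ℤ) + n - ((N + tl θ : ℕ) : ℤ) = e - N - tl θ := by push_cast; ring
    by_cases hyy : a₁ + π ≤ y
    · have hper : Per v π a₁ y := by
        intro j hj1 hj2
        have := hv (j - a₁).toNat (by
          have e1 : a₁ + (π : ℤ) + ((j - a₁).toNat : ℤ) + 1 = j + π + 1 := by omega
          rw [e1]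
          exact le_trans (h.strictMono.monotone (by omega)) hy1)
        have e1 : a₁ + ((j - a₁).toNat : ℤ) = j := by omega
        have e2 : a₁ + (π : ℤ) + ((j - a₁).toNat : ℤ) = j + π := by omega
        rw [e1, e2] at this
        exact this
      obtain ⟨q, hq1, hq2⟩ := h.per_image hper hyy
      refine app_of_per (q := q) (by omega) (by omega) ?_
      rw [e0]
      intro z hz1 hz2
      push_cast at hz1 hz2
      exact hq2 z (by omega) (by omega)
    · have hq : c (y + 1) ≤ c (a₁ + π) := h.strictMono.monotone (by omega)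
      refine app_of_per (q := (c (a₁ + π) - c a₁).toNat) (by omega) (by omega) ?_
      rw [e0]
      intro z hz1 hz2
      exfalso
      push_cast at hz1 hz2
      omega

end

end Pool.Agent.H40.MW
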