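import Pool.Agent.H68.MW.Defs

/-! # MP_1fe246_co, module PU6: counting the words `s ++ f(Ω[α..α+r)) ++ p` of length `n` -/

set_option autoImplicit false

namespace Pool.Agent.H40.MW

open Pool.Agent.H68.MW

theorem length_flatMap_win_lt {A B : Type} {f : B → List A} (hf : ∀ b, f b ≠ []) (V : ℤ → B) (α : ℤ)
    {r r' : ℕ} (h : r < r') :
    ((win V α r).flatMap f).length < ((win V α r').flatMap f).length := by
  obtain ⟨k, rfl⟩ : ∃ k, r' = r + (k + 1) := ⟨r' - r - 1, by omega⟩
  rw [win_add, List.flatMap_append, List.length_append, win_succ, List.flatMap_cons,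
    List.length_append]
  have := List.length_pos_iff.2 (hf (V (α + r)))
  omega

theorem le_length_flatMap_win {A B : Type} {f : B → List A} (hf : ∀ b, f b ≠ []) (V : ℤ → B) (α : ℤ)
    (r : ℕ) : r ≤ ((win V α r).flatMap f).length := by
  induction r with
  | zero => simp
  | succ r ih =>
    have := length_flatMap_win_lt hf V α (show r < r + 1 by omega)
    omega

/-- **PU6.** -/
theorem omega_count {A B ι : Type} [Fintype A] [Finite ι] (Ω : ι → ℤ → B) {f : B → List A}
    (hf : ∀ b, f b ≠ []) (K : ℕ) :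
    ∃ C : ℕ, ∀ n : ℕ, {w : List A | w.length = n ∧ ∃ (q : ι) (α : ℤ) (r : ℕ) (s p : List A),
      w = s ++ (win (Ω q) α r).flatMap f ++ p ∧ s.length ≤ K ∧ p.length ≤ K ∧
      -((r : ℤ) + K) ≤ α ∧ α ≤ r + K}.ncard ≤ C * (n + 1) := by
  classical
  have : Fintype ι := Fintype.ofFinite ι
  have hfin : {s : List A | s.length ≤ K}.Finite := List.finite_length_le A K
  set F : Finset (List A) := hfin.toFinset with hF
  refine ⟨Fintype.card ι * (F.card * F.card) * (2 * K + 3), fun n => ?_⟩
  let T : Finset (ι × (List A × List A) × ℤ) :=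
    Finset.univ ×ˢ ((F ×ˢ F) ×ˢ Finset.Icc (-((n : ℤ) + K)) (n + K))
  let R : ι × (List A × List A) × ℤ → List A → Prop := fun d w => w.length = n ∧
    ∃ r : ℕ, w = d.2.1.1 ++ (win (Ω d.1) d.2.2 r).flatMap f ++ d.2.1.2
  have hR : ∀ d w w', R d w → R d w' → w = w' := by
    rintro d w w' ⟨hw, r, h1⟩ ⟨hw', r', h1'⟩
    have hrr : r = r' := by
      rcases lt_trichotomy r r' with hlt | heq | hgt
      · exfalso
        have := length_flatMap_win_lt hf (Ω d.1) d.2.2 hlt
        rw [h1] at hw
        rw [h1'] at hw'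
        simp only [List.length_append] at hw hw'
        omega
      · exact heq
      · exfalso
        have := length_flatMap_win_lt hf (Ω d.1) d.2.2 hgt
        rw [h1] at hw
        rw [h1'] at hw'
        simp only [List.length_append] at hw hw'
        omega
    rw [h1, h1', hrr]
  let g : ι × (List A × List A) × ℤ → List A := fun d => if hd : ∃ w, R d w then hd.choose else []
  have hsub : {w : List A | w.length = n ∧ ∃ (q : ι) (α : ℤ) (r : ℕ) (s p : List A),
      w = s ++ (win (Ω q) α r).flatMap f ++ p ∧ s.length ≤ K ∧ p.length ≤ K ∧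
      -((r : ℤ) + K) ≤ α ∧ α ≤ r + K} ⊆ ((T.image g : Finset (List A)) : Set (List A)) := by
    rintro w ⟨hw, q, α, r, s, p, h1, hs, hp, hα1, hα2⟩
    have hr : r ≤ n := by
      have := le_length_flatMap_win hf (Ω q) α r
      rw [← hw, h1]
      simp only [List.length_append]
      omega
    rw [Finset.mem_coe, Finset.mem_image]
    refine ⟨(q, (s, p), α), ?_, ?_⟩
    · simp only [T, Finset.mem_product, Finset.mem_univ, true_and, Finset.mem_Icc, hF,
        Set.Finite.mem_toFinset, Set.mem_ofPred_eq]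
      refine ⟨⟨hs, hp⟩, by omega, by omega⟩
    · have hex : ∃ w, R (q, (s, p), α) w := ⟨w, hw, r, h1⟩
      simp only [g, dif_pos hex]
      exact hR _ _ _ hex.choose_spec ⟨hw, r, h1⟩
  refine (Set.ncard_le_ncard hsub (Finset.finite_toSet _)).trans ?_
  rw [Set.ncard_coe_finset]
  refine Finset.card_image_le.trans ?_
  simp only [T, Finset.card_product, Finset.card_univ, Int.card_Icc]
  have e : (((n : ℤ) + K + 1 - -((n : ℤ) + K)).toNat) = 2 * n + 2 * K + 1 := by omega
  rw [e]
  have h2 : 2 * n + 2 * K + 1 ≤ (2 * K + 3) * (n + 1) := by nlinarith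
  calc Fintype.card ι * (F.card * F.card * (2 * n + 2 * K + 1))
      ≤ Fintype.card ι * (F.card * F.card * ((2 * K + 3) * (n + 1))) := by gcongr
    _ = Fintype.card ι * (F.card * F.card) * (2 * K + 3) * (n + 1) := by ring

end Pool.Agent.H40.MW
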