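import Pool.Agent.H68.MW.BiFork
import Pool.Agent.H54.Mor.Fam

/-! # MP_1fe246_co, module C4: bi-fork words which are not almost periodic come in finitely many
doubling families -/

set_option autoImplicit false

namespace Pool.Agent.H40.MW

open Pool.Agent.H68.MW

/-- a window of the two images of two equal windows -/
theorem val_eq_win {B A : Type} {θ : B → List A} {v : ℤ → B} {U : ℤ → A} {c : ℤ → ℤ}
    (h : Img θ v U c) {x y : ℤ} {k : ℕ} (hk : win v x k = win v y k) (s : ℤ) (h1 : c x ≤ s)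
    (h2 : s < c (x + k)) : U s = U (s - c x + c y) := by
  have h3 := h.val_eq (a := x) (b := y) (k := k) ((win_eq_iff _ _ _ _ _).1 hk) (s - c x).toNat
    (by omega)
  have e1 : c x + ((s - c x).toNat : ℤ) = s := by omega
  have e2 : c y + ((s - c x).toNat : ℤ) = s - c x + c y := by omega
  rw [e1, e2] at h3
  exact h3

/-- the increments of the cut function inside two equal windows coincide -/
theorem cut_eq_win {B A : Type} {θ : B → List A} {v : ℤ → B} {U : ℤ → A} {c : ℤ → ℤ}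
    (h : Img θ v U c) {x y : ℤ} {k : ℕ} (hk : win v x k = win v y k) (i : ℕ) (hi : i ≤ k) :
    c (x + i) - c x = c (y + i) - c y := by
  have := (win_eq_iff _ _ _ _ _).1 hk
  exact h.cut_eq (fun j hj => this j (by omega))

/-- the lifted bi-fork is determined by the data of the bi-fork -/
theorem lift_det {B A : Type} {θ : B → List A} {v : ℤ → B} {U : ℤ → A} {c : ℤ → ℤ}
    (h : Img θ v U c) {K D : ℕ} (hD : D ≤ K) {a a' b b' : ℤ} {M : ℕ} {e e' g g' : ℤ} {n n' : ℕ}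
    (ha : BiF U e e' n) (hb : BiF U g g' n') (L1 : Lift c D a a' M e e' n)
    (L2 : Lift c D b b' M g g' n')
    (w1 : win v (a - M - K) (M + 2 * K) = win v (b - M - K) (M + 2 * K))
    (w2 : win v (a' - M - K) (M + 2 * K) = win v (b' - M - K) (M + 2 * K)) :
    n = n' ∧ e - c (a - M - K) = g - c (b - M - K) ∧ e' - c (a' - M - K) = g' - c (b' - M - K) := by
  obtain ⟨δ, ε, hδ, hε, x1, x2, x3, x4⟩ := L1
  obtain ⟨δ₂, ε₂, hδ₂, hε₂, y1, y2, y3, y4⟩ := L2
  obtain ⟨ha1, ha2, ha3⟩ := ha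
  obtain ⟨hb1, hb2, hb3⟩ := hb
  -- increments
  have i1 := cut_eq_win h w1 K (by omega)
  have i2 := cut_eq_win h w1 (K + M) (by omega)
  have i3 := cut_eq_win h w2 K (by omega)
  have i4 := cut_eq_win h w2 (K + M) (by omega)
  have q : ∀ z : ℤ, z - (M : ℤ) - K + K = z - M := fun z => by ring
  have q' : ∀ z : ℤ, z - (M : ℤ) - K + ((K + M : ℕ) : ℤ) = z := fun z => by push_cast; ring
  rw [q, q] at i1 i3
  rw [q', q'] at i2 i4
  -- lengths
  have j1 := h.add_le (a - M - K) K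
  have j2 := h.add_le (a' - M - K) K
  rw [q] at j1 j2
  have q'' : ∀ z : ℤ, z + (K : ℤ) = z - M - K + ((M + 2 * K : ℕ) : ℤ) := fun z => by
    push_cast; ring
  have j3 := h.add_le a K
  have j4 := h.add_le a' K
  rw [q'' a] at j3
  rw [q'' a'] at j4
  have m1 := h.strictMono.monotone (show a - (M : ℤ) ≤ a by omega)
  have m2 := h.strictMono.monotone (show a' - (M : ℤ) ≤ a' by omega)
  have n1 := h.strictMono.monotone (show b - (M : ℤ) ≤ b by omega)
  have n2 := h.strictMono.monotone (show b' - (M : ℤ) ≤ b' by omega)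
  -- equal letters
  have V1 : ∀ s : ℤ, c (a - M) - D ≤ s → s < c a + D → U s = U (s - c (a - M - K) + c (b - M - K)) :=
    fun s h1 h2 => val_eq_win h w1 s (by omega) (by omega)
  have V2 : ∀ s : ℤ, c (a' - M) - D ≤ s → s < c a' + D →
      U s = U (s - c (a' - M - K) + c (b' - M - K)) :=
    fun s h1 h2 => val_eq_win h w2 s (by omega) (by omega)
  have hδδ : δ = δ₂ := by
    rcases lt_trichotomy δ δ₂ with hlt | heq | hgt
    · exfalso
      apply ha2
      have := hb1 (c b + δ - (g - n')).toNat (by omega)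
      have e1 : g - (n' : ℤ) + ((c b + δ - (g - n')).toNat : ℤ) = c b + δ := by omega
      have e2 : g' - (n' : ℤ) + ((c b + δ - (g - n')).toNat : ℤ) = c b' + δ := by omega
      rw [e1, e2] at this
      rw [V1 e (by omega) (by omega), V2 e' (by omega) (by omega)]
      have e3 : e - c (a - M - K) + c (b - M - K) = c b + δ := by omega
      have e4 : e' - c (a' - M - K) + c (b' - M - K) = c b' + δ := by omega
      rw [e3, e4, this]
    · exact heq
    · exfalso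
      apply hb2
      have := ha1 (c a + δ₂ - (e - n)).toNat (by omega)
      have e1 : e - (n : ℤ) + ((c a + δ₂ - (e - n)).toNat : ℤ) = c a + δ₂ := by omega
      have e2 : e' - (n : ℤ) + ((c a + δ₂ - (e - n)).toNat : ℤ) = c a' + δ₂ := by omega
      rw [e1, e2, V1 (c a + δ₂) (by omega) (by omega), V2 (c a' + δ₂) (by omega) (by omega)] at this
      have e3 : c a + δ₂ - c (a - M - K) + c (b - M - K) = g := by omega
      have e4 : c a' + δ₂ - c (a' - M - K) + c (b' - M - K) = g' := by omega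
      rw [e3, e4] at this
      exact this
  have hεε : ε = ε₂ := by
    rcases lt_trichotomy ε ε₂ with hlt | heq | hgt
    · exfalso
      apply ha3
      have := hb1 (c (b - M) - ε - 1 - (g - n')).toNat (by omega)
      have e1 : g - (n' : ℤ) + ((c (b - M) - ε - 1 - (g - n')).toNat : ℤ) = c (b - M) - ε - 1 := by
        omega
      have e2 : g' - (n' : ℤ) + ((c (b - M) - ε - 1 - (g - n')).toNat : ℤ) = c (b' - M) - ε - 1 := by
        omega
      rw [e1, e2] at this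
      rw [V1 (e - n - 1) (by omega) (by omega), V2 (e' - n - 1) (by omega) (by omega)]
      have e3 : e - n - 1 - c (a - M - K) + c (b - M - K) = c (b - M) - ε - 1 := by omega
      have e4 : e' - n - 1 - c (a' - M - K) + c (b' - M - K) = c (b' - M) - ε - 1 := by omega
      rw [e3, e4, this]
    · exact heq
    · exfalso
      apply hb3
      have := ha1 (c (a - M) - ε₂ - 1 - (e - n)).toNat (by omega)
      have e1 : e - (n : ℤ) + ((c (a - M) - ε₂ - 1 - (e - n)).toNat : ℤ) = c (a - M) - ε₂ - 1 := by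
        omega
      have e2 : e' - (n : ℤ) + ((c (a - M) - ε₂ - 1 - (e - n)).toNat : ℤ) = c (a' - M) - ε₂ - 1 := by
        omega
      rw [e1, e2, V1 (c (a - M) - ε₂ - 1) (by omega) (by omega),
        V2 (c (a' - M) - ε₂ - 1) (by omega) (by omega)] at this
      have e3 : c (a - M) - ε₂ - 1 - c (a - M - K) + c (b - M - K) = g - n' - 1 := by omega
      have e4 : c (a' - M) - ε₂ - 1 - c (a' - M - K) + c (b' - M - K) = g' - n' - 1 := by omega
      rw [e3, e4] at this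
      exact this
  refine ⟨by omega, by omega, by omega⟩

/-- the data of a bi-fork -/
def data {B : Type} (v : ℤ → B) (K : ℕ) (a a' : ℤ) (M : ℕ) : ℕ × List B × List B :=
  (M, win v (a - M - K) (M + 2 * K), win v (a' - M - K) (M + 2 * K))

/-- periodicity up to `K` letters at both ends -/
def AP {B : Type} (v : ℤ → B) (K P : ℕ) (a : ℤ) (M : ℕ) : Prop :=
  ∃ q : ℕ, 0 < q ∧ q ≤ P ∧ Per v q (a - M + K) (a - K)

theorem AP.mono {B : Type} {v : ℤ → B} {K P K' P' : ℕ} {a : ℤ} {M : ℕ} (h : AP v K P a M)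
    (hK : K ≤ K') (hP : P ≤ P') : AP v K' P' a M := by
  obtain ⟨q, h1, h2, h3⟩ := h
  refine ⟨q, h1, by omega, fun i hi hi' => h3 i (by omega) (by omega)⟩

/-- the statement of module INH -/
def InhStmt {B : Type} [Fintype B] (τ : B → List B) (v : ℤ → B) (c : ℤ → ℤ) : Prop :=
  ∃ P₀ : ℕ, ∀ P, P₀ ≤ P → ∃ K₀ : ℕ, ∀ K, K₀ ≤ K → ∃ H : ℕ, ∀ (α α' : ℤ) (M : ℕ) (e e' : ℤ) (n : ℕ),
      BiF v α α' M → BiF v e e' n → Lift c (tl τ) α α' M e e' n → H ≤ M →
      (∃ q : ℕ, 0 < q ∧ q ≤ P ∧ Per v q (α - M + K) (α - K)) →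
      ∃ q : ℕ, 0 < q ∧ q ≤ P ∧ Per v q (e - n + K) (e - K)

theorem lift_length {c : ℤ → ℤ} {D : ℕ} {a a' : ℤ} {M : ℕ} {e e' : ℤ} {n : ℕ}
    (hL : Lift c D a a' M e e' n) : c a - c (a - M) ≤ n ∧ n ≤ c a - c (a - M) + 2 * D := by
  obtain ⟨δ, ε, h1, h2, h3, h4, h5, h6⟩ := hL
  omega

/-- families in `v` -/
theorem families_v {B : Type} [Fintype B] {τ : B → List B} {v : ℤ → B} {c : ℤ → ℤ} (hτ : Irred τ)
    (h : Img τ v v c) (hE : ∃ L₀ : ℕ, ∀ (x : ℤ) (n : ℕ), L₀ ≤ n → 2 * (n : ℤ) ≤ c (x + n) - c x)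
    (hinh : InhStmt τ v c) :
    ∃ P : ℕ, ∀ Kmin : ℕ, ∃ K : ℕ, Kmin ≤ K ∧ ∃ H : ℕ, ∀ Mmin, H ≤ Mmin → ∃ C : ℕ, ∀ m : ℕ,
      {d | (∃ (a a' : ℤ) (M : ℕ), BiF v a a' M ∧ Mmin ≤ M ∧ ¬ AP v K P a M ∧ d = data v K a a' M) ∧
          m ≤ d.1 ∧ d.1 < 2 * m}.Finite ∧
      {d | (∃ (a a' : ℤ) (M : ℕ), BiF v a a' M ∧ Mmin ≤ M ∧ ¬ AP v K P a M ∧ d = data v K a a' M) ∧
          m ≤ d.1 ∧ d.1 < 2 * m}.ncard ≤ C := by
  obtain ⟨L₀, hE⟩ := hE
  obtain ⟨N₁, P₁, hbi⟩ := biparent hτ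
  obtain ⟨P₀, hinh⟩ := hinh
  refine ⟨max P₀ P₁, fun Kmin => ?_⟩
  obtain ⟨K₀, hinh⟩ := hinh (max P₀ P₁) (le_max_left _ _)
  set P := max P₀ P₁ with hP
  set K := Kmin + K₀ + N₁ + tl τ + L₀ with hK
  obtain ⟨H, hinh⟩ := hinh K (by omega)
  refine ⟨K, by omega, H + L₀ + 1, fun Mmin hMmin => ?_⟩
  refine H54.Mor.fam
    {d | ∃ (a a' : ℤ) (M : ℕ), BiF v a a' M ∧ Mmin ≤ M ∧ ¬ AP v K P a M ∧ d = data v K a a' M}
    (fun d => d.1)
    (fun d₁ d => ∃ (a a' : ℤ) (M : ℕ) (e e' : ℤ) (n : ℕ), BiF v a a' M ∧ d₁ = data v K a a' M ∧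
      BiF v e e' n ∧ d = data v K e e' n ∧ Lift c (tl τ) a a' M e e' n)
    ((Mmin + 3) * (tl τ + 1)) ?_ ?_ ?_ ?_ ?_
  · rintro d₁ - d d' ⟨a, a', M, e, e', n, ha, hd₁, he, hd, hL⟩ ⟨b, b', M', g, g', n', hb, hd₁', hg, hd', hL'⟩
    rw [hd₁] at hd₁'
    simp only [data, Prod.mk.injEq] at hd₁'
    obtain ⟨rfl, w1, w2⟩ := hd₁'
    obtain ⟨hn, s1, s2⟩ := lift_det h (K := K) (by omega) he hg hL hL' w1 w2
    have hc1 : ∀ x : ℤ, c x + 2 * K ≤ c (x + K) := fun x => by
      have := hE x K (by omega)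
      omega
    subst hn
    rw [hd, hd']
    have key : ∀ (x y t z : ℤ), win v (x - M - K) (M + 2 * K) = win v (y - M - K) (M + 2 * K) →
        t - c (x - M - K) = z - c (y - M - K) →
        c (x - M) - tl τ ≤ t - n → t < c x + tl τ → win v (t - n - K) (n + 2 * K) = win v (z - n - K) (n + 2 * K) := by
      intro x y t z hw hs h1 h2
      rw [win_eq_iff]
      intro i hi
      have a1 := hc1 (x - M - K)
      have e1 : x - (M : ℤ) - K + K = x - M := by ring
      rw [e1] at a1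
      have a2 := hc1 x
      have e2 : x + (K : ℤ) = x - M - K + ((M + 2 * K : ℕ) : ℤ) := by push_cast; ring
      rw [e2] at a2
      rw [val_eq_win h hw (t - n - K + i) (by omega) (by omega)]
      congr 1
      omega
    obtain ⟨δ, ε, hδ, hε, x1, x2, x3, x4⟩ := hL
    simp only [data, Prod.mk.injEq]
    exact ⟨trivial, key a b e g w1 s1 (by omega) (by omega), key a' b' e' g' w2 s2 (by omega) (by omega)⟩
  · rintro d ⟨a, a', M, -, hM, -, rfl⟩
    simp only [data]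
    omega
  · rintro d₁ ⟨a₀, a₀', M₀, -, hM, -, rfl⟩ d ⟨a, a', M, e, e', n, ha, hd₁, he, rfl, hL⟩
    simp only [data, Prod.mk.injEq] at hd₁ ⊢
    obtain ⟨rfl, w1, w2⟩ := hd₁
    have h1 := lift_length hL
    have h2 := hE (a - M₀) M₀ (by omega)
    have e1 : a - (M₀ : ℤ) + M₀ = a := by ring
    rw [e1] at h2
    omega
  · rintro d ⟨e, e', n, he, hn, hnp, rfl⟩ hsize
    simp only [data] at hsize
    rcases hbi v v c h e e' n he with hper | ⟨α, α', M, hα, hL⟩
    · exfalso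
      exact hnp (AP.mono (K := N₁) (P := P₁) hper (by omega) (le_max_right _ _))
    · have h1 := lift_length hL
      have h2 := h.add_le' (α - M) M
      have e1 : α - (M : ℤ) + M = α := by ring
      rw [e1] at h2
      have hM : Mmin ≤ M := by
        by_contra hlt
        push Not at hlt
        have h3 : M * tl τ ≤ Mmin * tl τ := Nat.mul_le_mul_right _ hlt.le
        have h4 : (Mmin + 3) * (tl τ + 1) = Mmin * tl τ + Mmin + 3 * tl τ + 3 := by ring
        have h5 : ((M * tl τ : ℕ) : ℤ) = (M : ℤ) * tl τ := by push_cast; ring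
        omega
      refine ⟨data v K α α' M, ⟨α, α', M, hα, hM, ?_, rfl⟩, α, α', M, e, e', n, hα, rfl, he, rfl, hL⟩
      intro hap
      exact hnp (hinh α α' M e e' n hα he hL (by omega) hap)
  · set T := (Mmin + 3) * (tl τ + 1)
    refine Set.Finite.subset ((Set.finite_Iio T).prod
      ((List.finite_length_lt B (T + 2 * K)).prod (List.finite_length_lt B (T + 2 * K)))) ?_
    rintro d ⟨⟨a, a', M, -, -, -, rfl⟩, hd⟩
    simp only [data] at hd ⊢
    simp only [Set.mem_prod, Set.mem_Iio, Set.mem_ofPred_eq, length_win]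
    omega

theorem bf_families_of_inh {A B : Type} [Fintype A] [Fintype B] {τ : B → List B} {f : B → List A}
    {v : ℤ → B} {U : ℤ → A} {c c₀ : ℤ → ℤ} (hτ : Irred τ) (hf : Irred f) (h : Img τ v v c)
    (h₀ : Img f v U c₀)
    (hE : ∃ L₀ : ℕ, ∀ (x : ℤ) (n : ℕ), L₀ ≤ n → 2 * (n : ℤ) ≤ c (x + n) - c x)
    (hinh : InhStmt τ v c) :
    ∃ K P C : ℕ, ∀ m : ℕ, {w : List A | ∃ j, m ≤ j ∧ j < 2 * m ∧ w ∈ BF U j ∧ ¬ App K P w}.Finite ∧
      {w : List A | ∃ j, m ≤ j ∧ j < 2 * m ∧ w ∈ BF U j ∧ ¬ App K P w}.ncard ≤ C := by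
  classical
  obtain ⟨P, hfam⟩ := families_v hτ h hE hinh
  obtain ⟨Nf, Pf, hbi⟩ := biparent hf
  obtain ⟨K, hK, H, hfam⟩ := hfam (tl f)
  obtain ⟨C, hfam⟩ := hfam (H + 2 * K + P + 2) (by omega)
  set Mmin := H + 2 * K + P + 2 with hMmin
  set S : Set (ℕ × List B × List B) :=
    {d | ∃ (a a' : ℤ) (M : ℕ), BiF v a a' M ∧ Mmin ≤ M ∧ ¬ AP v K P a M ∧ d = data v K a a' M} with hS
  have hfam' : ∀ m : ℕ, {d | d ∈ S ∧ m ≤ d.1 ∧ d.1 < 2 * m}.Finite ∧
      {d | d ∈ S ∧ m ≤ d.1 ∧ d.1 < 2 * m}.ncard ≤ C := hfam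
  -- the words with data `d`
  let R : ℕ × List B × List B → List A → Prop := fun d w =>
    ∃ (a a' : ℤ) (M : ℕ) (e e' : ℤ) (n : ℕ), BiF v a a' M ∧ d = data v K a a' M ∧
      BiF U e e' n ∧ w = win U (e - n) n ∧ Lift c₀ (tl f) a a' M e e' n
  have hR : ∀ d w w', R d w → R d w' → w = w' := by
    rintro d w w' ⟨a, a', M, e, e', n, ha, hd₁, he, hd, hL⟩ ⟨b, b', M', g, g', n', hb, hd₁', hg, hd', hL'⟩
    rw [hd₁] at hd₁'
    simp only [data, Prod.mk.injEq] at hd₁'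
    obtain ⟨rfl, w1, w2⟩ := hd₁'
    obtain ⟨hn, s1, s2⟩ := lift_det h₀ (K := K) hK he hg hL hL' w1 w2
    subst hn
    rw [hd, hd', win_eq_iff]
    intro i hi
    obtain ⟨δ, ε, hδ, hε, x1, x2, x3, x4⟩ := hL
    have a1 := h₀.add_le (a - M - K) K
    have e1 : a - (M : ℤ) - K + K = a - M := by ring
    rw [e1] at a1
    have a2 := h₀.add_le a K
    have e2 : a + (K : ℤ) = a - M - K + ((M + 2 * K : ℕ) : ℤ) := by push_cast; ring
    rw [e2] at a2
    rw [val_eq_win h₀ w1 (e - n + i) (by omega) (by omega)]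
    congr 1
    omega
  obtain ⟨D, hD⟩ : ∃ D, D = tl f := ⟨_, rfl⟩
  rw [← hD] at hbi hK
  obtain ⟨KD, hKD⟩ : ∃ x, x = K * D := ⟨_, rfl⟩
  obtain ⟨PD, hPD⟩ : ∃ x, x = P * D := ⟨_, rfl⟩
  obtain ⟨QD, hQD⟩ : ∃ x, x = Mmin * D := ⟨_, rfl⟩
  set K' := Nf + KD + QD + 3 * D + 1 with hK'
  set P' := Pf + PD + 1 with hP'
  have hleD : ∀ (x : ℤ) (k kD : ℕ), kD = k * D → c₀ (x + k) ≤ c₀ x + kD := by
    intro x k kD hk
    have := h₀.add_le' x k
    rw [hk, hD]
    push_cast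
    exact this
  -- every word has data
  have hdata : ∀ j : ℕ, ∀ w ∈ BF U j, ¬ App K' P' w → ∃ d ∈ S, R d w ∧ d.1 ≤ j ∧ j ≤ 2 * D * d.1 := by
    rintro j w ⟨e, e', hw1, hw2, hee, hll⟩ happ
    have hbf : BiF U e e' j := by
      refine ⟨?_, hee, hll⟩
      rw [hw1] at hw2
      exact (win_eq_iff _ _ _ _ _).1 hw2
    have hper : ∀ q : ℕ, 0 < q → q ≤ P' → ¬ Per U q (e - j + K') (e - K') := by
      intro q hq hq' hper
      apply happ
      refine ⟨q, hq, hq', fun i hi hi' => ?_⟩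
      rw [hw1, length_win] at hi'
      have := hper (e - j + i) (by omega) (by omega)
      rw [hw1, List.getElem?_eq_getElem (by rw [length_win]; omega),
        List.getElem?_eq_getElem (by rw [length_win]; omega), getElem_win, getElem_win, this]
      congr 2
      push_cast
      ring
    rcases hbi v U c₀ h₀ e e' j hbf with ⟨q, hq, hq', hp⟩ | ⟨α, α', M, hα, hL⟩
    · exfalso
      exact hper q hq (by omega) (fun i hi hi' => hp i (by omega) (by omega))
    have h1 := lift_length hL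
    obtain ⟨MD, hMD⟩ : ∃ x, x = M * D := ⟨_, rfl⟩
    have h2 := hleD (α - M) M MD hMD
    have h2' := h₀.add_le (α - M) M
    have e1 : α - (M : ℤ) + M = α := by ring
    rw [e1] at h2 h2'
    have hM : Mmin ≤ M := by
      by_contra hlt
      push Not at hlt
      have h3 : M * D ≤ Mmin * D := Nat.mul_le_mul_right _ hlt.le
      rw [← hMD, ← hQD] at h3
      refine hper 1 one_pos (by omega) (fun i hi hi' => ?_)
      exfalso
      omega
    refine ⟨data v K α α' M, ⟨α, α', M, hα, hM, ?_, rfl⟩,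
      ⟨α, α', M, e, e', j, hα, rfl, hbf, hw1, hD ▸ hL⟩, ?_, ?_⟩
    · rintro ⟨q, hq, hqP, hp⟩
      obtain ⟨q', hq1, hq2⟩ := h₀.per_image hp (by omega)
      have h5 := h₀.add_le (α - M + K) q
      have h6 := hleD (α - M + K) q (q * D) rfl
      have h7 : q * D ≤ PD := by
        rw [hPD]
        exact Nat.mul_le_mul_right D hqP
      obtain ⟨qD, hqD⟩ : ∃ x, x = q * D := ⟨_, rfl⟩
      rw [← hqD] at h6 h7
      refine hper q' (by omega) (by omega) (fun i hi hi' => ?_)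
      have h9 := hleD (α - M) K KD hKD
      have h10 := hleD (α - K) K KD hKD
      have e6 : α - (K : ℤ) + K = α := by ring
      rw [e6] at h10
      obtain ⟨δ, ε, hδ, hε, x1, x2, x3, x4⟩ := hL
      exact hq2 i (by omega) (by omega)
    · simp only [data]
      omega
    · simp only [data]
      have h13 : 2 * D * M = MD + MD := by rw [hMD]; ring
      have h14 : 2 * D ≤ MD := by rw [hMD]; exact Nat.mul_le_mul_right _ (by omega)
      omega
  -- dyadic scales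
  obtain ⟨r, hr⟩ : ∃ r : ℕ, 4 * D ≤ 2 ^ r := ⟨4 * D, Nat.lt_two_pow_self.le⟩
  refine ⟨K', P', (r + 1) * C, fun m => ?_⟩
  let g : ℕ × List B × List B → List A := fun d => if hd : ∃ w, R d w then hd.choose else []
  have hsub : {w : List A | ∃ j, m ≤ j ∧ j < 2 * m ∧ w ∈ BF U j ∧ ¬ App K' P' w} ⊆
      ⋃ i ∈ Finset.range (r + 1), g '' {d | d ∈ S ∧ 2 ^ (Nat.log 2 (2 * m) - i) ≤ d.1 ∧
        d.1 < 2 * 2 ^ (Nat.log 2 (2 * m) - i)} := by
    rintro w ⟨j, hj1, hj2, hw, happ⟩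
    obtain ⟨d, hdS, hRd, hd1, hd2⟩ := hdata j w hw happ
    have hd0 : d.1 ≠ 0 := by
      intro h0
      obtain ⟨a, a', M, -, hM, -, rfl⟩ := hdS
      simp only [data] at h0
      omega
    have hk1 : Nat.log 2 d.1 ≤ Nat.log 2 (2 * m) := Nat.log_mono_right (by omega)
    have hk2 : Nat.log 2 (2 * m) ≤ r + Nat.log 2 d.1 := by
      have h3 : 2 * m < 2 ^ (r + Nat.log 2 d.1 + 1) := by
        calc 2 * m ≤ 4 * D * d.1 := by
              have : 4 * D * d.1 = 2 * (2 * D * d.1) := by ring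
              omega
          _ ≤ 2 ^ r * d.1 := Nat.mul_le_mul_right _ hr
          _ < 2 ^ r * 2 ^ (Nat.log 2 d.1 + 1) := by
              apply Nat.mul_lt_mul_of_pos_left (Nat.lt_pow_succ_log_self (by norm_num) _)
              positivity
          _ = 2 ^ (r + Nat.log 2 d.1 + 1) := by rw [add_assoc]; exact (pow_add _ _ _).symm
      have := Nat.log_lt_of_lt_pow (b := 2) (by omega : 2 * m ≠ 0) h3
      omega
    simp only [Set.mem_iUnion]
    refine ⟨Nat.log 2 (2 * m) - Nat.log 2 d.1, Finset.mem_range.2 (by omega), d, ⟨hdS, ?_, ?_⟩, ?_⟩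
    · have e : Nat.log 2 (2 * m) - (Nat.log 2 (2 * m) - Nat.log 2 d.1) = Nat.log 2 d.1 := by omega
      rw [e]
      exact Nat.pow_log_le_self 2 hd0
    · have e : Nat.log 2 (2 * m) - (Nat.log 2 (2 * m) - Nat.log 2 d.1) = Nat.log 2 d.1 := by omega
      rw [e]
      have := Nat.lt_pow_succ_log_self (b := 2) (by norm_num) d.1
      rw [pow_succ] at this
      omega
    · have hex : ∃ w, R d w := ⟨w, hRd⟩
      simp only [g, dif_pos hex]
      exact hR d _ _ hex.choose_spec hRd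
  have hfin : ∀ i ∈ Finset.range (r + 1), (g '' {d | d ∈ S ∧ 2 ^ (Nat.log 2 (2 * m) - i) ≤ d.1 ∧
        d.1 < 2 * 2 ^ (Nat.log 2 (2 * m) - i)}).Finite := fun i _ => (hfam' _).1.image g
  have hfinU : (⋃ i ∈ Finset.range (r + 1), g '' {d | d ∈ S ∧ 2 ^ (Nat.log 2 (2 * m) - i) ≤ d.1 ∧
        d.1 < 2 * 2 ^ (Nat.log 2 (2 * m) - i)}).Finite := by
    exact Set.Finite.biUnion (Finset.range (r + 1)).finite_toSet hfin
  refine ⟨hfinU.subset hsub, (Set.ncard_le_ncard hsub hfinU).trans ?_⟩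
  have hcard : ∀ t : ℕ, (⋃ i ∈ Finset.range t, g '' {d | d ∈ S ∧ 2 ^ (Nat.log 2 (2 * m) - i) ≤ d.1 ∧
        d.1 < 2 * 2 ^ (Nat.log 2 (2 * m) - i)}).ncard ≤ t * C := by
    intro t
    induction t with
    | zero => simp
    | succ t ih =>
      have e : (⋃ i ∈ Finset.range (t + 1), g '' {d | d ∈ S ∧ 2 ^ (Nat.log 2 (2 * m) - i) ≤ d.1 ∧
          d.1 < 2 * 2 ^ (Nat.log 2 (2 * m) - i)}) =
          (⋃ i ∈ Finset.range t, g '' {d | d ∈ S ∧ 2 ^ (Nat.log 2 (2 * m) - i) ≤ d.1 ∧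
          d.1 < 2 * 2 ^ (Nat.log 2 (2 * m) - i)}) ∪ g '' {d | d ∈ S ∧ 2 ^ (Nat.log 2 (2 * m) - t) ≤ d.1 ∧
          d.1 < 2 * 2 ^ (Nat.log 2 (2 * m) - t)} := by
        rw [Finset.range_add_one, Finset.set_biUnion_insert, Set.union_comm]
      rw [e]
      refine (Set.ncard_union_le _ _).trans ?_
      have h1 := (Set.ncard_image_le (hfam' (2 ^ (Nat.log 2 (2 * m) - t))).1 (f := g)).trans
        (hfam' (2 ^ (Nat.log 2 (2 * m) - t))).2
      have h2 : (t + 1) * C = t * C + C := by ring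
      omega
  exact hcard (r + 1)

end Pool.Agent.H40.MW
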